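import Pool.Agent.X157.Poly

set_option autoImplicit false
set_option maxRecDepth 20000

/-! An equivelar self-dual abstract polyhedron (of type {5,5}, with 22 vertices, 55 edges and
22 faces) which has exactly two dualities, both of order 4; so it has no polarity.
It comes from the flag action of three 2 by 2 matrices over the field with 109 elements on the
nonzero vectors modulo the 54-th roots of unity. Everything is checked in the kernel. -/

namespace Pool.Agent.Results.MP_1940b6_co.NoPolarity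

open Pool.Agent.X157.Poly

/-- A polyhedron (rank 3 polytope; the rank function `rk` is shifted by one) is equivelar of type
`{p, q}` when every 2-face is a `p`-gon and every vertex-figure is a `q`-gon. -/
def Equivelar (P : Polytope 3) (p q : ℕ) : Prop :=
  (∀ F : P.Face, P.rk F = 3 →
    {v : P.Face | P.rk v = 1 ∧ v < F}.ncard = p ∧ {e : P.Face | P.rk e = 2 ∧ e < F}.ncard = p) ∧
  (∀ v : P.Face, P.rk v = 1 →
    {e : P.Face | P.rk e = 2 ∧ v < e}.ncard = q ∧ {F : P.Face | P.rk F = 3 ∧ v < F}.ncard = q)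

/-- A duality of `P`: an inclusion reversing bijection of the set of faces. -/
def IsDuality {n : ℕ} (P : Polytope n) (δ : P.Face ≃ P.Face) : Prop :=
  ∀ x y : P.Face, x ≤ y ↔ δ y ≤ δ x

/-- A polarity of `P`: a duality of period two. -/
def IsPolarity {n : ℕ} (P : Polytope n) (δ : P.Face ≃ P.Face) : Prop :=
  IsDuality P δ ∧ ∀ x : P.Face, δ (δ x) = x

/-! ### The data -/

/-- the faces of the polyhedron: (rank + 1, bit mask of the set of faces below) -/
def L : List El := [
  (0, 1), (1, 3), (1, 5),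
  (1, 9), (1, 17), (1, 33),
  (1, 65), (1, 129), (1, 257),
  (1, 513), (1, 1025), (1, 2049),
  (1, 4097), (1, 8193), (1, 16385),
  (1, 32769), (1, 65537), (1, 131073),
  (1, 262145), (1, 524289), (1, 1048577),
  (1, 2097153), (1, 4194305), (2, 8388615),
  (2, 16777289), (2, 33555473), (2, 67108905),
  (2, 134479937), (2, 268566657), (2, 537919745),
  (2, 1073873409), (2, 2147484675), (2, 4295493633),
  (2, 8589946881), (2, 17181982721), (2, 34359771145),
  (2, 68719542337), (2, 137438954625), (2, 274882101505),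
  (2, 549755846673), (2, 1099512156161), (2, 2199023264257),
  (2, 4398047166465), (2, 8796093284865), (2, 17592187093009),
  (2, 35184372107265), (2, 70368746536961), (2, 140737488357381),
  (2, 281474977251329), (2, 562949957615633), (2, 1125899911045121),
  (2, 2251799813685381), (2, 4503599631630337), (2, 9007199255822337),
  (2, 18014398509482021), (2, 36028797019226129), (2, 72057594037932065),
  (2, 144115188075987201), (2, 288230376152793089), (2, 576460752303424003),
  (2, 1152921504606912769), (2, 2305843009213726977), (2, 4611686018427396225),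
  (2, 9223372036854792195), (2, 18446744073713746945), (2, 36893488147419627553),
  (2, 73786976294838272005), (2, 147573952589678510113), (2, 295147905179353874497),
  (2, 590295810358705668161), (2, 1180591620717411307523), (2, 2361183241434822672897),
  (2, 4722366482869645475969), (2, 9444732965739290428425), (2, 18889465931478580985865),
  (2, 37778931862957163808769), (2, 75557863725914325520385), (2, 151115727451828646848513),
  (3, 454527774116949438511111), (3, 604555148031284922614791), (3, 1228405581642339501883465),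
  (3, 2417872391817165944161553), (3, 4835850852481475339878505), (3, 9671701749858758915555409),
  (3, 19342817870761448356061569), (3, 38685627385673780506460433), (3, 77371252455343973426934273),
  (3, 154742689378148477307471905), (3, 309485009911558902567671845), (3, 618988909540967215155806473),
  (3, 1237943000564264926305141315), (3, 2475889523323992624917906605), (3, 4951767314480482294809559685),
  (3, 9903634840893659009318410243), (3, 19807040927460984536431690049), (3, 39614156851961721944711647265),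
  (3, 79228162514840798486776120963), (3, 158456325028566403829087871505), (3, 316912659501799340939301389337),
  (3, 633825493735752254790979299457), (4, 2535301200456458802993406410751)
]

/-- the images of the faces under a duality, in the order of `L` -/
def T : List El := [
  (4, 2535301200456458802993406410751), (3, 158456325028566403829087871505), (3, 19342817870761448356061569),
  (3, 1228405581642339501883465), (3, 309485009911558902567671845), (3, 618988909540967215155806473),
  (3, 4835850852481475339878505), (3, 79228162514840798486776120963), (3, 9903634840893659009318410243),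
  (3, 4951767314480482294809559685), (3, 77371252455343973426934273), (3, 2417872391817165944161553),
  (3, 38685627385673780506460433), (3, 604555148031284922614791), (3, 9671701749858758915555409),
  (3, 39614156851961721944711647265), (3, 633825493735752254790979299457), (3, 1237943000564264926305141315),
  (3, 2475889523323992624917906605), (3, 19807040927460984536431690049), (3, 154742689378148477307471905),
  (3, 316912659501799340939301389337), (3, 454527774116949438511111), (2, 1125899911045121),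
  (2, 16777289), (2, 1099512156161), (2, 18889465931478580985865),
  (2, 67108905), (2, 576460752303424003), (2, 35184372107265),
  (2, 2361183241434822672897), (2, 2199023264257), (2, 2305843009213726977),
  (2, 4503599631630337), (2, 9007199255822337), (2, 281474977251329),
  (2, 70368746536961), (2, 1073873409), (2, 1180591620717411307523),
  (2, 72057594037932065), (2, 1152921504606912769), (2, 73786976294838272005),
  (2, 68719542337), (2, 2251799813685381), (2, 4295493633),
  (2, 549755846673), (2, 9444732965739290428425), (2, 274882101505),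
  (2, 295147905179353874497), (2, 140737488357381), (2, 8388615),
  (2, 268566657), (2, 151115727451828646848513), (2, 36893488147419627553),
  (2, 144115188075987201), (2, 18014398509482021), (2, 537919745),
  (2, 9223372036854792195), (2, 17181982721), (2, 8796093284865),
  (2, 37778931862957163808769), (2, 75557863725914325520385), (2, 2147484675),
  (2, 36028797019226129), (2, 8589946881), (2, 288230376152793089),
  (2, 4611686018427396225), (2, 34359771145), (2, 147573952589678510113),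
  (2, 134479937), (2, 562949957615633), (2, 4722366482869645475969),
  (2, 137438954625), (2, 4398047166465), (2, 590295810358705668161),
  (2, 33555473), (2, 17592187093009), (2, 18446744073713746945),
  (1, 4194305), (1, 8193), (1, 65),
  (1, 4097), (1, 9), (1, 33),
  (1, 3), (1, 2049), (1, 65537),
  (1, 32769), (1, 257), (1, 16385),
  (1, 262145), (1, 131073), (1, 129),
  (1, 17), (1, 2097153), (1, 1048577),
  (1, 513), (1, 5), (1, 524289),
  (1, 1025), (0, 1)
]

/-- the flags -/
def fls : List (El × El × El) := [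
  ((1, 3), (2, 8388615), (3, 454527774116949438511111)),
  ((1, 5), (2, 8388615), (3, 454527774116949438511111)),
  ((1, 3), (2, 8388615), (3, 604555148031284922614791)),
  ((1, 9), (2, 16777289), (3, 1228405581642339501883465)),
  ((1, 17), (2, 33555473), (3, 2417872391817165944161553)),
  ((1, 33), (2, 67108905), (3, 4835850852481475339878505)),
  ((1, 65), (2, 134479937), (3, 9671701749858758915555409)),
  ((1, 129), (2, 268566657), (3, 19342817870761448356061569)),
  ((1, 257), (2, 537919745), (3, 38685627385673780506460433)),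
  ((1, 513), (2, 1073873409), (3, 77371252455343973426934273)),
  ((1, 1025), (2, 2147484675), (3, 604555148031284922614791)),
  ((1, 2049), (2, 4295493633), (3, 154742689378148477307471905)),
  ((1, 4097), (2, 8589946881), (3, 454527774116949438511111)),
  ((1, 8193), (2, 8589946881), (3, 77371252455343973426934273)),
  ((1, 2049), (2, 4295493633), (3, 309485009911558902567671845)),
  ((1, 16385), (2, 17181982721), (3, 154742689378148477307471905)),
  ((1, 32769), (2, 34359771145), (3, 618988909540967215155806473)),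
  ((1, 65537), (2, 68719542337), (3, 1237943000564264926305141315)),
  ((1, 129), (2, 137438954625), (3, 2475889523323992624917906605)),
  ((1, 257), (2, 274882101505), (3, 2417872391817165944161553)),
  ((1, 17), (2, 549755846673), (3, 9671701749858758915555409)),
  ((1, 4097), (2, 1099512156161), (3, 309485009911558902567671845)),
  ((1, 8193), (2, 2199023264257), (3, 77371252455343973426934273)),
  ((1, 131073), (2, 4398047166465), (3, 77371252455343973426934273)),
  ((1, 262145), (2, 8796093284865), (3, 4951767314480482294809559685)),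
  ((1, 524289), (2, 1099512156161), (3, 77371252455343973426934273)),
  ((1, 1048577), (2, 17592187093009), (3, 38685627385673780506460433)),
  ((1, 2049), (2, 35184372107265), (3, 9903634840893659009318410243)),
  ((1, 2097153), (2, 70368746536961), (3, 4835850852481475339878505)),
  ((1, 65), (2, 134479937), (3, 4835850852481475339878505)),
  ((1, 5), (2, 140737488357381), (3, 454527774116949438511111)),
  ((1, 65537), (2, 68719542337), (3, 19807040927460984536431690049)),
  ((1, 524289), (2, 281474977251329), (3, 39614156851961721944711647265)),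
  ((1, 513), (2, 1073873409), (3, 79228162514840798486776120963)),
  ((1, 17), (2, 562949957615633), (3, 158456325028566403829087871505)),
  ((1, 4194305), (2, 1125899911045121), (3, 158456325028566403829087871505)),
  ((1, 129), (2, 137438954625), (3, 79228162514840798486776120963)),
  ((1, 5), (2, 140737488357381), (3, 309485009911558902567671845)),
  ((1, 33), (2, 67108905), (3, 2475889523323992624917906605)),
  ((1, 129), (2, 2251799813685381), (3, 4951767314480482294809559685)),
  ((1, 65537), (2, 4503599631630337), (3, 38685627385673780506460433)),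
  ((1, 9), (2, 34359771145), (3, 316912659501799340939301389337)),
  ((1, 16385), (2, 281474977251329), (3, 1228405581642339501883465)),
  ((1, 3), (2, 2147484675), (3, 79228162514840798486776120963)),
  ((1, 2097153), (2, 17181982721), (3, 39614156851961721944711647265)),
  ((1, 65537), (2, 4503599631630337), (3, 604555148031284922614791)),
  ((1, 32769), (2, 9007199255822337), (3, 9671701749858758915555409)),
  ((1, 33), (2, 18014398509482021), (3, 2475889523323992624917906605)),
  ((1, 33), (2, 18014398509482021), (3, 309485009911558902567671845)),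
  ((1, 262145), (2, 36028797019226129), (3, 158456325028566403829087871505)),
  ((1, 33), (2, 72057594037932065), (3, 39614156851961721944711647265)),
  ((1, 8193), (2, 2199023264257), (3, 158456325028566403829087871505)),
  ((1, 17), (2, 17592187093009), (3, 316912659501799340939301389337)),
  ((1, 131073), (2, 144115188075987201), (3, 618988909540967215155806473)),
  ((1, 1048577), (2, 288230376152793089), (3, 19807040927460984536431690049)),
  ((1, 513), (2, 576460752303424003), (3, 1237943000564264926305141315)),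
  ((1, 257), (2, 1152921504606912769), (3, 19807040927460984536431690049)),
  ((1, 1025), (2, 33555473), (3, 316912659501799340939301389337)),
  ((1, 5), (2, 2251799813685381), (3, 2475889523323992624917906605)),
  ((1, 1048577), (2, 9007199255822337), (3, 316912659501799340939301389337)),
  ((1, 17), (2, 36028797019226129), (3, 9671701749858758915555409)),
  ((1, 32769), (2, 2305843009213726977), (3, 19807040927460984536431690049)),
  ((1, 129), (2, 4611686018427396225), (3, 19342817870761448356061569)),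
  ((1, 2049), (2, 35184372107265), (3, 154742689378148477307471905)),
  ((1, 257), (2, 144115188075987201), (3, 19342817870761448356061569)),
  ((1, 3), (2, 9223372036854792195), (3, 9903634840893659009318410243)),
  ((1, 3), (2, 9223372036854792195), (3, 1237943000564264926305141315)),
  ((1, 32769), (2, 288230376152793089), (3, 618988909540967215155806473)),
  ((1, 4194305), (2, 18446744073713746945), (3, 604555148031284922614791)),
  ((1, 33), (2, 36893488147419627553), (3, 154742689378148477307471905)),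
  ((1, 65537), (2, 73786976294838272005), (3, 4951767314480482294809559685)),
  ((1, 2097153), (2, 147573952589678510113), (3, 4835850852481475339878505)),
  ((1, 1048577), (2, 295147905179353874497), (3, 19807040927460984536431690049)),
  ((1, 4194305), (2, 18446744073713746945), (3, 2417872391817165944161553)),
  ((1, 3), (2, 576460752303424003), (3, 79228162514840798486776120963)),
  ((1, 65), (2, 590295810358705668161), (3, 1237943000564264926305141315)),
  ((1, 4097), (2, 1180591620717411307523), (3, 9903634840893659009318410243)),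
  ((1, 65537), (2, 2361183241434822672897), (3, 4951767314480482294809559685)),
  ((1, 8193), (2, 1125899911045121), (3, 19342817870761448356061569)),
  ((1, 4194305), (2, 274882101505), (3, 19342817870761448356061569)),
  ((1, 262145), (2, 4722366482869645475969), (3, 4951767314480482294809559685)),
  ((1, 33), (2, 147573952589678510113), (3, 154742689378148477307471905)),
  ((1, 9), (2, 9444732965739290428425), (3, 316912659501799340939301389337)),
  ((1, 4097), (2, 1180591620717411307523), (3, 454527774116949438511111)),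
  ((1, 131073), (2, 18889465931478580985865), (3, 1228405581642339501883465)),
  ((1, 131073), (2, 4398047166465), (3, 1228405581642339501883465)),
  ((1, 33), (2, 72057594037932065), (3, 309485009911558902567671845)),
  ((1, 257), (2, 2305843009213726977), (3, 2417872391817165944161553)),
  ((1, 2049), (2, 37778931862957163808769), (3, 633825493735752254790979299457)),
  ((1, 129), (2, 268566657), (3, 79228162514840798486776120963)),
  ((1, 2097153), (2, 70368746536961), (3, 633825493735752254790979299457)),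
  ((1, 129), (2, 4611686018427396225), (3, 633825493735752254790979299457)),
  ((1, 2097153), (2, 37778931862957163808769), (3, 9903634840893659009318410243)),
  ((1, 1048577), (2, 537919745), (3, 618988909540967215155806473)),
  ((1, 4194305), (2, 562949957615633), (3, 38685627385673780506460433)),
  ((1, 65537), (2, 2361183241434822672897), (3, 1237943000564264926305141315)),
  ((1, 9), (2, 9444732965739290428425), (3, 2475889523323992624917906605)),
  ((1, 65), (2, 295147905179353874497), (3, 9671701749858758915555409)),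
  ((1, 524289), (2, 36893488147419627553), (3, 39614156851961721944711647265)),
  ((1, 2097153), (2, 75557863725914325520385), (3, 9903634840893659009318410243)),
  ((1, 2049), (2, 151115727451828646848513), (3, 633825493735752254790979299457)),
  ((1, 8193), (2, 151115727451828646848513), (3, 454527774116949438511111)),
  ((1, 2097153), (2, 75557863725914325520385), (3, 39614156851961721944711647265)),
  ((1, 5), (2, 73786976294838272005), (3, 604555148031284922614791)),
  ((1, 262145), (2, 4722366482869645475969), (3, 633825493735752254790979299457)),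
  ((1, 32769), (2, 549755846673), (3, 2417872391817165944161553)),
  ((1, 262145), (2, 8796093284865), (3, 158456325028566403829087871505)),
  ((1, 131073), (2, 18889465931478580985865), (3, 618988909540967215155806473)),
  ((1, 65), (2, 590295810358705668161), (3, 1228405581642339501883465)),
  ((1, 65537), (2, 1152921504606912769), (3, 38685627385673780506460433)),
  ((1, 9), (2, 16777289), (3, 4835850852481475339878505)),
  ((1, 5), (2, 8388615), (3, 604555148031284922614791)),
  ((1, 65537), (2, 1152921504606912769), (3, 19807040927460984536431690049)),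
  ((1, 65), (2, 16777289), (3, 4835850852481475339878505)),
  ((1, 3), (2, 576460752303424003), (3, 1237943000564264926305141315)),
  ((1, 257), (2, 1152921504606912769), (3, 38685627385673780506460433)),
  ((1, 32769), (2, 288230376152793089), (3, 19807040927460984536431690049)),
  ((1, 16385), (2, 590295810358705668161), (3, 1228405581642339501883465)),
  ((1, 257), (2, 144115188075987201), (3, 618988909540967215155806473)),
  ((1, 9), (2, 18889465931478580985865), (3, 618988909540967215155806473)),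
  ((1, 1048577), (2, 17592187093009), (3, 316912659501799340939301389337)),
  ((1, 513), (2, 8796093284865), (3, 158456325028566403829087871505)),
  ((1, 513), (2, 2199023264257), (3, 158456325028566403829087871505)),
  ((1, 17), (2, 549755846673), (3, 2417872391817165944161553)),
  ((1, 4097), (2, 72057594037932065), (3, 39614156851961721944711647265)),
  ((1, 129), (2, 4722366482869645475969), (3, 633825493735752254790979299457)),
  ((1, 17), (2, 36028797019226129), (3, 158456325028566403829087871505)),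
  ((1, 65537), (2, 73786976294838272005), (3, 604555148031284922614791)),
  ((1, 5), (2, 18014398509482021), (3, 309485009911558902567671845)),
  ((1, 4097), (2, 75557863725914325520385), (3, 39614156851961721944711647265)),
  ((1, 5), (2, 18014398509482021), (3, 2475889523323992624917906605)),
  ((1, 2049), (2, 151115727451828646848513), (3, 454527774116949438511111)),
  ((1, 1048577), (2, 9007199255822337), (3, 9671701749858758915555409)),
  ((1, 8193), (2, 151115727451828646848513), (3, 633825493735752254790979299457)),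
  ((1, 4194305), (2, 4503599631630337), (3, 604555148031284922614791)),
  ((1, 4097), (2, 75557863725914325520385), (3, 9903634840893659009318410243)),
  ((1, 16385), (2, 17181982721), (3, 39614156851961721944711647265)),
  ((1, 33), (2, 36893488147419627553), (3, 39614156851961721944711647265)),
  ((1, 1025), (2, 2147484675), (3, 79228162514840798486776120963)),
  ((1, 1048577), (2, 295147905179353874497), (3, 9671701749858758915555409)),
  ((1, 524289), (2, 281474977251329), (3, 1228405581642339501883465)),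
  ((1, 1025), (2, 9444732965739290428425), (3, 2475889523323992624917906605)),
  ((1, 32769), (2, 34359771145), (3, 316912659501799340939301389337)),
  ((1, 513), (2, 2361183241434822672897), (3, 1237943000564264926305141315)),
  ((1, 4194305), (2, 4503599631630337), (3, 38685627385673780506460433)),
  ((1, 17), (2, 562949957615633), (3, 38685627385673780506460433)),
  ((1, 5), (2, 2251799813685381), (3, 4951767314480482294809559685)),
  ((1, 257), (2, 537919745), (3, 618988909540967215155806473)),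
  ((1, 9), (2, 67108905), (3, 2475889523323992624917906605)),
  ((1, 2049), (2, 37778931862957163808769), (3, 9903634840893659009318410243)),
  ((1, 2049), (2, 140737488357381), (3, 309485009911558902567671845)),
  ((1, 8193), (2, 4611686018427396225), (3, 633825493735752254790979299457)),
  ((1, 1025), (2, 137438954625), (3, 79228162514840798486776120963)),
  ((1, 262145), (2, 70368746536961), (3, 633825493735752254790979299457)),
  ((1, 8193), (2, 1125899911045121), (3, 158456325028566403829087871505)),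
  ((1, 131073), (2, 268566657), (3, 79228162514840798486776120963)),
  ((1, 4194305), (2, 562949957615633), (3, 158456325028566403829087871505)),
  ((1, 2097153), (2, 37778931862957163808769), (3, 633825493735752254790979299457)),
  ((1, 131073), (2, 1073873409), (3, 79228162514840798486776120963)),
  ((1, 32769), (2, 2305843009213726977), (3, 2417872391817165944161553)),
  ((1, 16385), (2, 281474977251329), (3, 39614156851961721944711647265)),
  ((1, 4097), (2, 72057594037932065), (3, 309485009911558902567671845)),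
  ((1, 65), (2, 68719542337), (3, 19807040927460984536431690049)),
  ((1, 524289), (2, 4398047166465), (3, 1228405581642339501883465)),
  ((1, 2049), (2, 140737488357381), (3, 454527774116949438511111)),
  ((1, 9), (2, 18889465931478580985865), (3, 1228405581642339501883465)),
  ((1, 262145), (2, 134479937), (3, 4835850852481475339878505)),
  ((1, 3), (2, 1180591620717411307523), (3, 454527774116949438511111)),
  ((1, 262145), (2, 70368746536961), (3, 4835850852481475339878505)),
  ((1, 1025), (2, 9444732965739290428425), (3, 316912659501799340939301389337)),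
  ((1, 16385), (2, 35184372107265), (3, 9903634840893659009318410243)),
  ((1, 2097153), (2, 147573952589678510113), (3, 154742689378148477307471905)),
  ((1, 17), (2, 17592187093009), (3, 38685627385673780506460433)),
  ((1, 129), (2, 4722366482869645475969), (3, 4951767314480482294809559685)),
  ((1, 4097), (2, 1099512156161), (3, 77371252455343973426934273)),
  ((1, 257), (2, 274882101505), (3, 19342817870761448356061569)),
  ((1, 513), (2, 8796093284865), (3, 4951767314480482294809559685)),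
  ((1, 4194305), (2, 1125899911045121), (3, 19342817870761448356061569)),
  ((1, 524289), (2, 4398047166465), (3, 77371252455343973426934273)),
  ((1, 513), (2, 2361183241434822672897), (3, 4951767314480482294809559685)),
  ((1, 513), (2, 2199023264257), (3, 77371252455343973426934273)),
  ((1, 3), (2, 1180591620717411307523), (3, 9903634840893659009318410243)),
  ((1, 524289), (2, 1099512156161), (3, 309485009911558902567671845)),
  ((1, 16385), (2, 590295810358705668161), (3, 1237943000564264926305141315)),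
  ((1, 32769), (2, 549755846673), (3, 9671701749858758915555409)),
  ((1, 513), (2, 576460752303424003), (3, 79228162514840798486776120963)),
  ((1, 4194305), (2, 274882101505), (3, 2417872391817165944161553)),
  ((1, 1025), (2, 18446744073713746945), (3, 2417872391817165944161553)),
  ((1, 1025), (2, 137438954625), (3, 2475889523323992624917906605)),
  ((1, 65), (2, 295147905179353874497), (3, 19807040927460984536431690049)),
  ((1, 65), (2, 68719542337), (3, 1237943000564264926305141315)),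
  ((1, 33), (2, 147573952589678510113), (3, 4835850852481475339878505)),
  ((1, 9), (2, 34359771145), (3, 618988909540967215155806473)),
  ((1, 5), (2, 73786976294838272005), (3, 4951767314480482294809559685)),
  ((1, 2097153), (2, 17181982721), (3, 154742689378148477307471905)),
  ((1, 524289), (2, 36893488147419627553), (3, 154742689378148477307471905)),
  ((1, 524289), (2, 4295493633), (3, 309485009911558902567671845)),
  ((1, 1025), (2, 18446744073713746945), (3, 604555148031284922614791)),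
  ((1, 4097), (2, 8589946881), (3, 77371252455343973426934273)),
  ((1, 1048577), (2, 288230376152793089), (3, 618988909540967215155806473)),
  ((1, 8193), (2, 8589946881), (3, 454527774116949438511111)),
  ((1, 16385), (2, 9223372036854792195), (3, 1237943000564264926305141315)),
  ((1, 524289), (2, 4295493633), (3, 154742689378148477307471905)),
  ((1, 16385), (2, 9223372036854792195), (3, 9903634840893659009318410243)),
  ((1, 3), (2, 2147484675), (3, 604555148031284922614791)),
  ((1, 131073), (2, 144115188075987201), (3, 19342817870761448356061569)),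
  ((1, 131073), (2, 1073873409), (3, 77371252455343973426934273)),
  ((1, 16385), (2, 35184372107265), (3, 154742689378148477307471905)),
  ((1, 1048577), (2, 537919745), (3, 38685627385673780506460433)),
  ((1, 8193), (2, 4611686018427396225), (3, 19342817870761448356061569)),
  ((1, 131073), (2, 268566657), (3, 19342817870761448356061569)),
  ((1, 257), (2, 2305843009213726977), (3, 19807040927460984536431690049)),
  ((1, 262145), (2, 134479937), (3, 9671701749858758915555409)),
  ((1, 262145), (2, 36028797019226129), (3, 9671701749858758915555409)),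
  ((1, 9), (2, 67108905), (3, 4835850852481475339878505)),
  ((1, 32769), (2, 9007199255822337), (3, 316912659501799340939301389337)),
  ((1, 1025), (2, 33555473), (3, 2417872391817165944161553)),
  ((1, 129), (2, 2251799813685381), (3, 2475889523323992624917906605)),
  ((1, 65), (2, 16777289), (3, 1228405581642339501883465)),
  ((1, 17), (2, 33555473), (3, 316912659501799340939301389337))
]

/-- for each flag a word showing that it is not the image of the base flag under a polarity -/
def words : List (List ℕ) := [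
  [0, 1, 0, 1, 2, 1, 0, 2, 1, 0, 1, 0, 2, 1],
  [0],
  [2],
  [1, 2, 1, 0, 2, 1, 0, 2, 1, 0],
  [0, 2, 1, 0, 1, 0, 2, 1, 0, 1, 2, 1, 2],
  [0, 1, 2, 1, 0, 2, 1, 2],
  [1, 2, 1, 0, 2, 1, 0, 1, 2, 1, 2, 1],
  [2, 1, 0, 2, 1, 0, 1, 2],
  [0, 2, 1, 0, 1, 2, 1, 0, 1],
  [2, 1, 2, 1, 0, 1, 2],
  [0, 1, 2, 1, 2, 1, 0, 1, 0, 2, 1, 2],
  [1, 2, 1, 0, 1, 0, 2, 1],
  [1, 0, 1],
  [1, 0, 1, 0, 2],
  [0, 1, 0, 2, 1],
  [1, 2, 1, 0, 1, 2, 1],
  [2, 1, 0, 1, 2, 1, 2, 1, 0, 1, 0, 2],
  [0, 2, 1, 0, 2, 1, 2, 1],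
  [2, 1, 0, 2, 1, 0, 2],
  [2, 1, 0, 1, 0, 2, 1, 0],
  [2, 1, 0, 1, 2, 1, 0, 1, 2],
  [1, 0, 1, 2, 1, 2],
  [1, 0, 1, 0, 2, 1],
  [1, 0, 1, 2, 1, 0, 1, 0],
  [0, 2, 1, 0, 2, 1, 0, 1, 0],
  [1, 0, 1, 2, 1, 0],
  [0, 2, 1, 0, 1, 0, 2, 1, 0, 1, 0],
  [1, 2, 1, 0, 1, 0],
  [0, 1, 0, 1, 2, 1, 0, 1, 2],
  [1, 2, 1, 0, 2, 1, 0, 2, 1, 2, 1],
  [0, 1],
  [0, 2, 1, 0, 1, 2, 1, 2, 1],
  [0, 1, 0, 2, 1, 0, 2, 1, 2, 1],
  [2, 1, 2, 1, 0, 1],
  [0, 2, 1, 0, 1, 0, 2, 1, 0, 2],
  [1, 0, 1, 0, 2, 1, 2, 1, 0],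
  [0, 1, 2, 1, 2, 1, 0, 1, 2],
  [1, 0, 1, 2, 1, 0, 2, 1, 0, 1, 0],
  [0, 1, 2, 1, 0, 2, 1],
  [0, 2, 1, 2, 1, 0],
  [0, 2, 1, 0, 1, 2],
  [2, 1, 0, 1, 2, 1, 2, 1, 0, 1],
  [1, 2, 1, 0, 2, 1, 2, 1],
  [2, 1, 2],
  [1, 2, 1, 0, 1, 2, 1, 0, 2],
  [0, 2, 1, 0, 1],
  [2, 1, 0, 1, 2, 1, 0, 1, 0, 2, 1],
  [0, 1, 2, 1, 0, 2],
  [0, 1, 2, 1, 0],
  [0, 2, 1, 0, 2, 1, 0, 1, 0, 2, 1],
  [1, 0, 2, 1, 2, 1, 0],
  [1, 0, 1, 0, 2, 1, 2],
  [2, 1, 0, 1, 2, 1, 0, 2, 1],
  [2, 1, 0, 2, 1, 0, 1, 0, 2, 1, 2],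
  [1, 2, 1, 0, 2, 1, 0, 1, 2, 1, 0, 1],
  [1, 2, 1, 2, 1, 0],
  [2, 1, 0, 1, 0, 2, 1, 0, 1, 2, 1],
  [2, 1, 0, 1, 2, 1, 2],
  [0, 1, 2, 1, 2, 1],
  [2, 1, 0, 1, 2, 1, 0, 2, 1, 0, 1],
  [2, 1, 0, 1, 2, 1, 0, 1, 2, 1],
  [0, 2, 1, 0, 1, 2, 1, 0, 2, 1, 0],
  [0, 1, 0, 1, 0, 2, 1, 0, 2],
  [0, 1, 0, 2, 1, 2, 1],
  [2, 1, 0, 1, 0, 2, 1, 0, 2, 1],
  [1, 2, 1],
  [1, 2, 1, 2],
  [0, 2, 1, 0, 1, 2, 1, 0, 1, 0, 2, 1, 0],
  [2, 1, 0, 1, 0],
  [0, 1, 0, 2, 1, 0, 2, 1, 0],
  [1, 2, 1, 2, 1, 0, 1, 0, 2, 1],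
  [0, 1, 0, 1, 2, 1, 0, 1, 2, 1],
  [1, 2, 1, 0, 2, 1, 0, 1, 2, 1, 0],
  [2, 1, 0, 1, 0, 2],
  [2, 1, 2, 1],
  [1, 2, 1, 0, 2, 1, 0],
  [1, 0, 2],
  [0, 2, 1, 0, 2, 1],
  [2, 1, 0, 2, 1, 0, 1, 2, 1, 0, 1],
  [2, 1, 0, 1, 0, 2, 1, 2],
  [0, 2, 1, 2, 1, 0, 1, 0],
  [0, 1, 0, 2, 1, 0, 2, 1, 0, 1],
  [2, 1, 0, 1, 2, 1, 2, 1, 0],
  [1, 0],
  [1, 0, 1, 2, 1, 0, 1, 0, 2, 1],
  [1, 0, 1, 2, 1, 0, 1, 0, 2],
  [0, 1, 2, 1, 0, 1],
  [2, 1, 0, 1, 0, 2, 1, 0, 1],
  [0, 1, 0, 1, 2, 1],
  [2, 1, 0, 2, 1, 0, 1],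
  [0, 1, 0, 1, 2, 1, 0, 1],
  [0, 1, 0, 1, 0, 2, 1, 0],
  [1, 0, 2, 1, 0, 1],
  [0, 2, 1, 0, 1, 2, 1, 0, 1, 0, 2],
  [0, 2, 1, 0, 1, 0, 2, 1],
  [0, 2, 1, 0, 2, 1, 2],
  [2, 1, 0, 2, 1, 2, 1, 0],
  [1, 2, 1, 0, 2, 1, 0, 1, 2, 1, 2],
  [0, 1, 2, 1, 0, 1, 2, 1, 0],
  [1, 0, 2, 1, 0],
  [0, 1, 0, 1, 2],
  [0, 1, 0, 1, 0],
  [1, 0, 2, 1, 0, 2],
  [0, 2, 1],
  [0, 1, 0, 1, 0, 2, 1, 0, 1, 0],
  [2, 1, 0, 1, 2, 1, 0, 1, 0],
  [0, 2, 1, 0, 2, 1, 0, 1, 0, 2],
  [1, 0, 1, 2, 1, 0, 1, 0, 2, 1, 2],
  [1, 2, 1, 0, 2, 1, 0, 2],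
  [0, 2, 1, 0, 1, 2, 1],
  [0, 1, 2, 1, 0, 2, 1, 0, 2, 1],
  [1, 2, 1, 2, 1, 0, 1, 0, 2, 1, 0, 2, 1],
  [0, 2, 1, 0, 1, 2, 1, 2],
  [1, 2, 1, 0, 2, 1, 0, 2, 1, 2],
  [1, 2, 1, 2, 1],
  [0, 2, 1, 0, 1, 2, 1, 0],
  [0, 2, 1, 0, 1, 2, 1, 0, 2, 1, 0, 1],
  [1, 2, 1, 0, 2, 1, 2],
  [0, 2, 1, 0, 1, 2, 1, 0, 1, 2, 1],
  [1, 0, 1, 2, 1, 0, 1, 0, 2, 1, 0, 2],
  [2, 1, 0, 1, 2, 1, 0, 2, 1, 0],
  [0, 2, 1, 0, 2, 1, 0, 1, 2],
  [1, 0, 1, 0, 2, 1, 0, 2],
  [2, 1, 0, 1, 2, 1, 0, 1],
  [1, 0, 2, 1, 2, 1],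
  [0, 2, 1, 2, 1, 0, 1, 2],
  [0, 2, 1, 0, 1, 0, 2, 1, 0, 2, 1],
  [0, 2, 1, 0],
  [0, 1, 2, 1],
  [1, 0, 2, 1, 2],
  [0, 1, 2, 1, 2],
  [0, 1, 0, 1],
  [2, 1, 0, 1, 2, 1, 0, 1, 0, 2, 1, 0],
  [0, 1, 0, 1, 0, 2],
  [0, 2, 1, 0, 1, 0],
  [0, 1, 0, 1, 2, 1, 0, 2, 1, 0],
  [1, 0, 2, 1, 0, 2, 1, 0],
  [0, 1, 2, 1, 0, 1, 2, 1],
  [2, 1, 0, 2],
  [1, 2, 1, 0, 2, 1, 0, 1, 2, 1, 0, 2],
  [1, 2, 1, 0, 2, 1, 2, 1, 0],
  [2, 1, 0, 2, 1, 2, 1],
  [2, 1, 0, 1, 2, 1, 2, 1, 0, 1, 0],
  [1, 2, 1, 2, 1, 0, 1],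
  [0, 2, 1, 0, 1, 0, 2],
  [0, 2, 1, 0, 1, 0, 2, 1, 0],
  [0, 2, 1, 2, 1],
  [0, 2, 1, 0, 1, 2, 1, 0, 1, 2],
  [0, 1, 2, 1, 0, 2, 1, 0],
  [1, 0, 2, 1, 0, 1, 0],
  [0, 1, 0, 2],
  [0, 1, 0, 1, 0, 2, 1],
  [2, 1, 0, 2, 1],
  [0, 1, 0, 1, 2, 1, 0, 1, 0],
  [2, 1, 2, 1, 0, 1, 2, 1, 0, 2, 1],
  [2, 1, 0, 2, 1, 0, 1, 0],
  [0, 2, 1, 0, 1, 0, 2, 1, 2],
  [0, 1, 0, 1, 2, 1, 0],
  [1, 0, 1, 0, 2, 1, 0, 1, 0, 2],
  [2, 1, 0, 1, 0, 2, 1, 0, 1, 0],
  [1, 0, 2, 1, 0, 2, 1, 0, 1],
  [0, 1, 2, 1, 0, 1, 0],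
  [1, 2, 1, 0, 2, 1, 0, 1, 2],
  [1, 0, 1, 2, 1, 0, 1, 2],
  [0, 1, 0],
  [1, 0, 1, 2, 1, 0, 1, 0, 2, 1, 0],
  [0, 1, 0, 1, 2, 1, 0, 1, 0, 2, 1],
  [0, 1, 0, 1, 2, 1, 0, 2, 1, 0, 1, 0, 2],
  [0, 1, 0, 1, 2, 1, 0, 1, 0, 2],
  [2, 1, 0, 1, 2, 1, 2, 1],
  [0, 1, 0, 1, 2, 1, 2, 1, 0],
  [1, 0, 2, 1, 0, 2, 1, 2, 1],
  [0, 2, 1, 0, 1, 0, 2, 1, 0, 1],
  [0, 2, 1, 2, 1, 0, 1],
  [0, 1, 0, 2, 1, 0, 1, 0, 2],
  [2, 1, 0, 1, 0, 2, 1, 0, 2],
  [0, 2, 1, 0, 2, 1, 0, 1],
  [2, 1, 0, 1, 0, 2, 1, 2, 1],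
  [1, 0, 1, 2, 1, 0, 1],
  [0, 2, 1, 0, 2, 1, 0],
  [1, 0, 1, 0, 2, 1, 0],
  [1, 2],
  [0, 1, 0, 2, 1, 0, 1],
  [1, 2, 1, 0, 2, 1],
  [2, 1, 0, 1, 2, 1, 0, 1, 0, 2],
  [2, 1, 2, 1, 0],
  [2, 1, 0, 1, 0, 2, 1],
  [2, 1, 0, 1, 2],
  [2, 1, 0, 2, 1, 2],
  [1, 2, 1, 0, 2, 1, 0, 1, 2, 1],
  [0, 2, 1, 0, 2, 1, 2, 1, 0],
  [0, 1, 2, 1, 0, 2, 1, 2, 1],
  [2, 1, 0, 1, 2, 1, 2, 1, 0, 1, 2],
  [0, 2, 1, 2],
  [1, 0, 2, 1, 0, 2, 1, 2],
  [0, 1, 0, 2, 1, 0, 2, 1],
  [0, 1, 0, 2, 1, 0],
  [2, 1, 0, 1],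
  [1, 0, 1, 2],
  [0, 2, 1, 0, 1, 2, 1, 0, 1, 0, 2, 1],
  [1, 0, 1, 0],
  [1, 2, 1, 0, 2],
  [0, 1, 0, 2, 1, 0, 2],
  [1, 2, 1, 0],
  [2, 1],
  [2, 1, 0, 2, 1, 0, 1, 0, 2, 1],
  [2, 1, 2, 1, 0, 1, 0, 2],
  [1, 2, 1, 0, 1, 2],
  [0, 2, 1, 0, 1, 2, 1, 0, 1, 0],
  [0, 1, 0, 1, 0, 2, 1, 2],
  [2, 1, 0, 2, 1, 0, 1, 0, 2],
  [0, 2, 1, 0, 1, 2, 1, 0, 2, 1],
  [0, 1, 0, 1, 2, 1, 0, 1, 0, 2, 1, 2],
  [0, 2, 1, 0, 2, 1, 0, 1, 0, 2, 1, 2],
  [0, 1, 2, 1, 0, 2, 1, 0, 2],
  [2, 1, 0, 1, 2, 1, 0, 1, 0, 2, 1, 2],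
  [2, 1, 0, 1, 2, 1],
  [0, 1, 2, 1, 2, 1, 0],
  [1, 2, 1, 0, 2, 1, 0, 2, 1],
  [2, 1, 0, 1, 2, 1, 0, 2]
]

def bt : El := (0, 1)
def tp : El := (4, 2535301200456458802993406410751)

/-! ### Checks -/

lemma good : Good 3 L bt tp := good_of_chk (by decide +kernel)

/-- the elements of rank `r` which are below `x` -/
def dn (r : ℕ) (x : El) : List El := L.filter (fun z => Nat.beq z.1 r && ltB z x)
/-- the elements of rank `r` which are above `x` -/
def up (r : ℕ) (x : El) : List El := L.filter (fun z => Nat.beq z.1 r && ltB x z)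

def eqvChk : Bool :=
  L.all (fun x => !(Nat.beq x.1 3) || (Nat.beq (dn 1 x).length 5 && Nat.beq (dn 2 x).length 5)) &&
  L.all (fun x => !(Nat.beq x.1 1) || (Nat.beq (up 2 x).length 5 && Nat.beq (up 3 x).length 5))

lemma eqvChk_true : eqvChk = true := by decide +kernel

lemma ncard_dn (r : ℕ) (x : PF L) :
    {z : PF L | z.1.1 = r ∧ (ordPF good).lt z x}.ncard = (dn r x.1).length := by
  classical
  have h1 : (dn r x.1).Nodup := good.nodup.filter _
  rw [← List.toFinset_card_of_nodup h1, ← Set.ncard_coe_finset]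
  apply Set.ncard_congr (fun z _ => z.1)
  · intro z hz
    simp only [List.coe_toFinset]
    show z.1 ∈ dn r x.1
    unfold dn
    rw [List.mem_filter, Bool.and_eq_true, Nat.beq_eq]
    exact ⟨z.2, hz.1, (ordPF_lt good _ _).mp hz.2⟩
  · intro z w _ _ he
    exact Subtype.ext he
  · intro z hz
    simp only [List.coe_toFinset] at hz
    have hz' : z ∈ dn r x.1 := hz
    unfold dn at hz'
    rw [List.mem_filter, Bool.and_eq_true, Nat.beq_eq] at hz'
    exact ⟨⟨z, hz'.1⟩, ⟨hz'.2.1, (ordPF_lt good _ _).mpr hz'.2.2⟩, rfl⟩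

lemma ncard_up (r : ℕ) (x : PF L) :
    {z : PF L | z.1.1 = r ∧ (ordPF good).lt x z}.ncard = (up r x.1).length := by
  classical
  have h1 : (up r x.1).Nodup := good.nodup.filter _
  rw [← List.toFinset_card_of_nodup h1, ← Set.ncard_coe_finset]
  apply Set.ncard_congr (fun z _ => z.1)
  · intro z hz
    simp only [List.coe_toFinset]
    show z.1 ∈ up r x.1
    unfold up
    rw [List.mem_filter, Bool.and_eq_true, Nat.beq_eq]
    exact ⟨z.2, hz.1, (ordPF_lt good _ _).mp hz.2⟩
  · intro z w _ _ he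
    exact Subtype.ext he
  · intro z hz
    simp only [List.coe_toFinset] at hz
    have hz' : z ∈ up r x.1 := hz
    unfold up at hz'
    rw [List.mem_filter, Bool.and_eq_true, Nat.beq_eq] at hz'
    exact ⟨⟨z, hz'.1⟩, ⟨hz'.2.1, (ordPF_lt good _ _).mpr hz'.2.2⟩, rfl⟩

lemma equivelar : Equivelar (mkPoly good) 5 5 := by
  have h := eqvChk_true
  unfold eqvChk at h
  rw [Bool.and_eq_true, List.all_eq_true, List.all_eq_true] at h
  obtain ⟨h1, h2⟩ := h
  constructor
  · intro F hF
    have h3 := imp_of_or (h1 F.1 F.2) (by rw [Nat.beq_eq]; exact hF)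
    rw [Bool.and_eq_true, Nat.beq_eq, Nat.beq_eq] at h3
    exact ⟨(ncard_dn 1 F).trans h3.1, (ncard_dn 2 F).trans h3.2⟩
  · intro F hF
    have h3 := imp_of_or (h2 F.1 F.2) (by rw [Nat.beq_eq]; exact hF)
    rw [Bool.and_eq_true, Nat.beq_eq, Nat.beq_eq] at h3
    exact ⟨(ncard_up 2 F).trans h3.1, (ncard_up 3 F).trans h3.2⟩

/-! ### The duality -/

def look (A : List (El × El)) (x : El) : El :=
  match A.find? (fun p => eqB p.1 x) with
  | some p => p.2
  | none => x

def fwd (x : El) : El := look (L.zip T) x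
def bwd (x : El) : El := look (T.zip L) x

def dualChk : Bool :=
  L.all (fun x => L.any (fun y => eqB y (fwd x)) && eqB (bwd (fwd x)) x) &&
  L.all (fun x => L.any (fun y => eqB y (bwd x)) && eqB (fwd (bwd x)) x) &&
  (L.zip (L.map fwd)).all (fun p => (L.zip (L.map fwd)).all (fun q => leB p.1 q.1 == leB q.2 p.2))

lemma dualChk_true : dualChk = true := by decide +kernel

lemma any_eqB {A : List El} {x : El} (h : A.any (fun y => eqB y x) = true) : x ∈ A := by
  rw [List.any_eq_true] at h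
  obtain ⟨y, hy, h⟩ := h
  rw [eqB_iff] at h
  exact h ▸ hy

lemma mem_zip_map {A : List El} {x : El} (f : El → El) (h : x ∈ A) : (x, f x) ∈ A.zip (A.map f) := by
  induction A with
  | nil => exact absurd h List.not_mem_nil
  | cons a l ih =>
    rw [List.map_cons, List.zip_cons_cons]
    rcases List.mem_cons.mp h with h | h
    · subst h; exact List.mem_cons_self
    · exact List.mem_cons_of_mem _ (ih h)

lemma exists_duality : ∃ δ : (mkPoly good).Face ≃ (mkPoly good).Face, IsDuality (mkPoly good) δ := by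
  have h := dualChk_true
  unfold dualChk at h
  rw [Bool.and_eq_true, Bool.and_eq_true, List.all_eq_true, List.all_eq_true,
    List.all_eq_true] at h
  obtain ⟨⟨h1, h2⟩, h3⟩ := h
  have h1' : ∀ x ∈ L, fwd x ∈ L ∧ bwd (fwd x) = x := by
    intro x hx
    have := h1 x hx
    rw [Bool.and_eq_true, eqB_iff] at this
    exact ⟨any_eqB this.1, this.2⟩
  have h2' : ∀ x ∈ L, bwd x ∈ L ∧ fwd (bwd x) = x := by
    intro x hx
    have := h2 x hx
    rw [Bool.and_eq_true, eqB_iff] at this
    exact ⟨any_eqB this.1, this.2⟩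
  let δ : PF L ≃ PF L :=
    { toFun := fun x => ⟨fwd x.1, (h1' x.1 x.2).1⟩
      invFun := fun x => ⟨bwd x.1, (h2' x.1 x.2).1⟩
      left_inv := fun x => Subtype.ext (h1' x.1 x.2).2
      right_inv := fun x => Subtype.ext (h2' x.1 x.2).2 }
  refine ⟨δ, ?_⟩
  intro x y
  have h4 := List.all_eq_true.mp (h3 (x.1, fwd x.1) (mem_zip_map fwd x.2)) (y.1, fwd y.1)
    (mem_zip_map fwd y.2)
  rw [beq_iff_eq] at h4
  show leB x.1 y.1 = true ↔ leB (fwd y.1) (fwd x.1) = true
  rw [h4]

/-! ### No polarity -/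

/-- the element of the list `mid L x y` other than `z` -/
def oth (x y z : El) : El := ((mid L x y).filter (fun w => !(eqB w z))).headD z

lemma oth_eq {x y z w : El} (hx : x ∈ L) (hy : y ∈ L) (hxy : ltB x y = true) (hr : y.1 = x.1 + 2)
    (hz : z ∈ mid L x y) (hw : w ∈ mid L x y) (hne : w ≠ z) : oth x y z = w := by
  have h2 := good.diam x hx y hy hxy hr
  have hnd : (mid L x y).Nodup := good.nodup.filter _
  obtain ⟨a, b, hab⟩ := List.length_eq_two.mp h2
  unfold oth
  rw [hab] at hz hw hnd ⊢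
  have hne' : a ≠ b := by
    intro h
    subst h
    exact (List.nodup_cons.mp hnd).1 List.mem_cons_self
  have e1 : eqB a a = true := eqB_iff.mpr rfl
  have e2 : eqB b b = true := eqB_iff.mpr rfl
  have e3 : eqB a b = false := by
    rw [← Bool.not_eq_true, eqB_iff]; exact hne'
  have e4 : eqB b a = false := by
    rw [← Bool.not_eq_true, eqB_iff]; exact hne'.symm
  rcases List.mem_cons.mp hz with h | h
  · subst h
    rcases List.mem_cons.mp hw with h' | h'
    · exact absurd h' hne
    · rw [List.mem_singleton] at h'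
      subst h'
      simp [List.filter, e1, e4]
  · rw [List.mem_singleton] at h
    subst h
    rcases List.mem_cons.mp hw with h' | h'
    · subst h'
      simp [List.filter, e3]
    · rw [List.mem_singleton] at h'
      exact absurd h' hne

lemma oth_spec {x y z : El} (hx : x ∈ L) (hy : y ∈ L) (hxy : ltB x y = true) (hr : y.1 = x.1 + 2)
    (hz : z ∈ mid L x y) : oth x y z ∈ mid L x y ∧ oth x y z ≠ z := by
  have h2 := good.diam x hx y hy hxy hr
  have hnd : (mid L x y).Nodup := good.nodup.filter _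
  obtain ⟨a, b, hab⟩ := List.length_eq_two.mp h2
  have hne' : a ≠ b := by
    intro h
    subst h
    rw [hab] at hnd
    exact (List.nodup_cons.mp hnd).1 List.mem_cons_self
  have ha : a ∈ mid L x y := by rw [hab]; exact List.mem_cons_self
  have hb : b ∈ mid L x y := by rw [hab]; simp
  have hz' := hz
  rw [hab] at hz'
  rcases List.mem_cons.mp hz' with h | h
  · subst h
    rw [oth_eq hx hy hxy hr hz hb hne'.symm]
    exact ⟨hb, hne'.symm⟩
  · rw [List.mem_singleton] at h
    subst h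
    rw [oth_eq hx hy hxy hr hz ha hne']
    exact ⟨ha, hne'⟩

abbrev Tr := El × El × El

def IsFl (φ : Tr) : Prop :=
  φ.1 ∈ L ∧ φ.2.1 ∈ L ∧ φ.2.2 ∈ L ∧ φ.1.1 = 1 ∧ φ.2.1.1 = 2 ∧ φ.2.2.1 = 3 ∧
  ltB φ.1 φ.2.1 = true ∧ ltB φ.2.1 φ.2.2 = true

def stp (i : ℕ) (φ : Tr) : Tr :=
  if Nat.beq i 0 then (oth bt φ.2.1 φ.1, φ.2.1, φ.2.2)
  else if Nat.beq i 1 then (φ.1, oth φ.1 φ.2.2 φ.2.1, φ.2.2)
  else (φ.1, φ.2.1, oth φ.2.1 tp φ.2.2)

def walk (w : List ℕ) (φ : Tr) : Tr := w.foldl (fun φ i => stp i φ) φ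

/-- the dual word -/
def star (w : List ℕ) : List ℕ := w.map (fun i => 2 - i)

def eqT (φ ψ : Tr) : Bool := eqB φ.1 ψ.1 && (eqB φ.2.1 ψ.2.1 && eqB φ.2.2 ψ.2.2)

lemma eqT_iff {φ ψ : Tr} : eqT φ ψ = true ↔ φ = ψ := by
  unfold eqT
  rw [Bool.and_eq_true, Bool.and_eq_true, eqB_iff, eqB_iff, eqB_iff]
  constructor
  · rintro ⟨h1, h2, h3⟩
    exact Prod.ext h1 (Prod.ext h2 h3)
  · rintro rfl
    exact ⟨rfl, rfl, rfl⟩

def base : Tr := fls.headD (bt, bt, bt)

def flsChk : Bool :=
  L.all (fun x => !(Nat.beq x.1 1) || L.all (fun y => !(Nat.beq y.1 2 && ltB x y) ||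
    L.all (fun z => !(Nat.beq z.1 3 && ltB y z) || fls.any (fun φ => eqT φ (x, y, z)))))

lemma flsChk_true : flsChk = true := by decide +kernel

def wordsChk : Bool :=
  words.all (fun w => w.all (fun i => Nat.ble i 2)) &&
  (Nat.beq fls.length words.length && (fls.zip words).all (fun p => eqT (walk p.2 base) p.1 && !(eqT (walk (star p.2) p.1) base)))

lemma wordsChk_true : wordsChk = true := by decide +kernel

def baseChk : Bool :=
  L.any (fun y => eqB y base.1) && L.any (fun y => eqB y base.2.1) && L.any (fun y => eqB y base.2.2) &&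
  Nat.beq base.1.1 1 && Nat.beq base.2.1.1 2 && Nat.beq base.2.2.1 3 && ltB base.1 base.2.1 &&
  ltB base.2.1 base.2.2

lemma base_isFl : IsFl base := by
  have h : baseChk = true := by decide +kernel
  unfold baseChk at h
  simp only [Bool.and_eq_true, Nat.beq_eq] at h
  obtain ⟨⟨⟨⟨⟨⟨⟨h1, h2⟩, h3⟩, h4⟩, h5⟩, h6⟩, h7⟩, h8⟩ := h
  exact ⟨any_eqB h1, any_eqB h2, any_eqB h3, h4, h5, h6, h7, h8⟩

lemma mem_fls {φ : Tr} (h : IsFl φ) : φ ∈ fls := by
  obtain ⟨h1, h2, h3, h4, h5, h6, h7, h8⟩ := h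
  have hc := flsChk_true
  unfold flsChk at hc
  rw [List.all_eq_true] at hc
  have c1 := imp_of_or (hc _ h1) (by rw [Nat.beq_eq]; exact h4)
  rw [List.all_eq_true] at c1
  have c2 := imp_of_or (c1 _ h2) (by rw [Bool.and_eq_true, Nat.beq_eq]; exact ⟨h5, h7⟩)
  rw [List.all_eq_true] at c2
  have c3 := imp_of_or (c2 _ h3) (by rw [Bool.and_eq_true, Nat.beq_eq]; exact ⟨h6, h8⟩)
  rw [List.any_eq_true] at c3
  obtain ⟨ψ, hψ, he⟩ := c3
  rw [eqT_iff] at he
  rw [he] at hψ
  exact hψ

lemma zip_partner {A : List Tr} {B : List (List ℕ)} (hl : A.length = B.length) {φ : Tr}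
    (h : φ ∈ A) : ∃ w ∈ B, (φ, w) ∈ A.zip B := by
  induction A generalizing B with
  | nil => exact absurd h List.not_mem_nil
  | cons a l ih =>
    cases B with
    | nil => simp at hl
    | cons b m =>
      rw [List.zip_cons_cons]
      rcases List.mem_cons.mp h with h | h
      · subst h
        exact ⟨b, List.mem_cons_self, List.mem_cons_self⟩
      · obtain ⟨w, hw, hw'⟩ := ih (by simpa using hl) h
        exact ⟨w, List.mem_cons_of_mem _ hw, List.mem_cons_of_mem _ hw'⟩

lemma word_of {φ : Tr} (h : φ ∈ fls) : ∃ w : List ℕ, (∀ i ∈ w, i ≤ 2) ∧ walk w base = φ ∧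
    walk (star w) φ ≠ base := by
  have hc := wordsChk_true
  unfold wordsChk at hc
  rw [Bool.and_eq_true, Bool.and_eq_true, List.all_eq_true, List.all_eq_true, Nat.beq_eq] at hc
  obtain ⟨c1, c2, c3⟩ := hc
  obtain ⟨w, hw, hz⟩ := zip_partner c2 h
  have c4 := c3 _ hz
  rw [Bool.and_eq_true, Bool.not_eq_true', ← Bool.not_eq_true, eqT_iff, eqT_iff] at c4
  refine ⟨w, ?_, c4.1, c4.2⟩
  intro i hi
  have c5 := c1 w hw
  rw [List.all_eq_true] at c5
  have := c5 i hi
  rwa [Nat.ble_eq] at this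

lemma mem_mid {x y z : El} : z ∈ mid L x y ↔ z ∈ L ∧ ltB x z = true ∧ ltB z y = true := by
  unfold mid
  rw [List.mem_filter, Bool.and_eq_true]

lemma bt_lt {x : El} (hx : x ∈ L) (h : x.1 ≠ 0) : ltB bt x = true := by
  unfold ltB
  rw [Bool.and_eq_true, Bool.not_eq_true', ← Bool.not_eq_true, Nat.beq_eq]
  refine ⟨good.bot x hx, fun he => h ?_⟩
  rw [← good.inj _ good.memb _ hx he]; rfl

lemma lt_tp {x : El} (hx : x ∈ L) (h : x.1 ≠ 4) : ltB x tp = true := by
  unfold ltB
  rw [Bool.and_eq_true, Bool.not_eq_true', ← Bool.not_eq_true, Nat.beq_eq]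
  refine ⟨good.top x hx, fun he => h ?_⟩
  rw [good.inj _ hx _ good.memt he]; rfl

lemma lt_trans' {x y z : El} (hx : x ∈ L) (hy : y ∈ L) (hz : z ∈ L) (h1 : ltB x y = true)
    (h2 : ltB y z = true) : ltB x z = true := by
  have r1 := good.rk x hx y hy h1
  have r2 := good.rk y hy z hz h2
  unfold ltB at h1 h2 ⊢
  rw [Bool.and_eq_true] at h1 h2 ⊢
  refine ⟨leB_trans h1.1 h2.1, ?_⟩
  rw [Bool.not_eq_true', ← Bool.not_eq_true, Nat.beq_eq]
  intro he
  have := good.inj _ hx _ hz he
  rw [this] at r1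
  omega

lemma stp_isFl {φ : Tr} (h : IsFl φ) (i : ℕ) : IsFl (stp i φ) := by
  obtain ⟨h1, h2, h3, h4, h5, h6, h7, h8⟩ := h
  unfold stp
  split
  · have hm : φ.1 ∈ mid L bt φ.2.1 := mem_mid.mpr ⟨h1, bt_lt h1 (by omega), h7⟩
    obtain ⟨o1, o2⟩ := oth_spec good.memb h2 (bt_lt h2 (by omega)) (by rw [h5]; rfl) hm
    rw [mem_mid] at o1
    obtain ⟨o3, o4, o5⟩ := o1
    have r1 := good.rk _ good.memb _ o3 o4
    have r2 := good.rk _ o3 _ h2 o5
    refine ⟨o3, h2, h3, ?_, h5, h6, o5, h8⟩
    have : bt.1 = 0 := rfl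
    show (oth bt φ.2.1 φ.1).1 = 1
    omega
  · split
    · have h9 := lt_trans' h1 h2 h3 h7 h8
      have hm : φ.2.1 ∈ mid L φ.1 φ.2.2 := mem_mid.mpr ⟨h2, h7, h8⟩
      obtain ⟨o1, o2⟩ := oth_spec h1 h3 h9 (by rw [h6, h4]) hm
      rw [mem_mid] at o1
      obtain ⟨o3, o4, o5⟩ := o1
      have r1 := good.rk _ h1 _ o3 o4
      have r2 := good.rk _ o3 _ h3 o5
      refine ⟨h1, o3, h3, h4, ?_, h6, o4, o5⟩
      show (oth φ.1 φ.2.2 φ.2.1).1 = 2
      omega
    · have hm : φ.2.2 ∈ mid L φ.2.1 tp := mem_mid.mpr ⟨h3, h8, lt_tp h3 (by omega)⟩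
      obtain ⟨o1, o2⟩ := oth_spec h2 good.memt (lt_tp h2 (by omega)) (by rw [h5]; rfl) hm
      rw [mem_mid] at o1
      obtain ⟨o3, o4, o5⟩ := o1
      have r1 := good.rk _ h2 _ o3 o4
      have r2 := good.rk _ o3 _ good.memt o5
      refine ⟨h1, h2, o3, h4, h5, ?_, h7, o4⟩
      have : tp.1 = 4 := rfl
      show (oth φ.2.1 tp φ.2.2).1 = 3
      omega

section dual

variable {d : El → El} (dm : ∀ x ∈ L, d x ∈ L) (dl : ∀ x ∈ L, ∀ y ∈ L, ltB x y = true → ltB (d y) (d x) = true)
  (di : ∀ x ∈ L, ∀ y ∈ L, d x = d y → x = y) (db : d bt = tp) (dt : d tp = bt)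

/-- the action on flags -/
def dact (d : El → El) (φ : Tr) : Tr := (d φ.2.2, d φ.2.1, d φ.1)

include dm dl db dt in
lemma dact_isFl {φ : Tr} (h : IsFl φ) : IsFl (dact d φ) := by
  obtain ⟨h1, h2, h3, h4, h5, h6, h7, h8⟩ := h
  have a1 := dl _ h1 _ h2 h7
  have a2 := dl _ h2 _ h3 h8
  have a3 := dl _ good.memb _ h1 (bt_lt h1 (by omega))
  have a4 := dl _ h3 _ good.memt (lt_tp h3 (by omega))
  have r1 := good.rk _ (dm _ h2) _ (dm _ h1) a1
  have r2 := good.rk _ (dm _ h3) _ (dm _ h2) a2
  have r3 := good.rk _ (dm _ h1) _ (dm _ good.memb) a3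
  have r4 := good.rk _ (dm _ good.memt) _ (dm _ h3) a4
  rw [db] at r3
  rw [dt] at r4
  have e1 : bt.1 = 0 := rfl
  have e2 : tp.1 = 4 := rfl
  refine ⟨dm _ h3, dm _ h2, dm _ h1, ?_, ?_, ?_, a2, a1⟩
  · show (d φ.2.2).1 = 1
    omega
  · show (d φ.2.1).1 = 2
    omega
  · show (d φ.1).1 = 3
    omega

include dm dl di in
lemma d_oth {x y z : El} (hx : x ∈ L) (hy : y ∈ L) (hxy : ltB x y = true) (hr : y.1 = x.1 + 2)
    (hr' : (d x).1 = (d y).1 + 2) (hz : z ∈ mid L x y) : d (oth x y z) = oth (d y) (d x) (d z) := by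
  obtain ⟨o1, o2⟩ := oth_spec hx hy hxy hr hz
  have hz' := mem_mid.mp hz
  have ho' := mem_mid.mp o1
  symm
  apply oth_eq (dm _ hy) (dm _ hx) (dl _ hx _ hy hxy) hr'
  · exact mem_mid.mpr ⟨dm _ hz'.1, dl _ hz'.1 _ hy hz'.2.2, dl _ hx _ hz'.1 hz'.2.1⟩
  · exact mem_mid.mpr ⟨dm _ ho'.1, dl _ ho'.1 _ hy ho'.2.2, dl _ hx _ ho'.1 ho'.2.1⟩
  · intro he
    exact o2 (di _ ho'.1 _ hz'.1 he)

include dm dl di db dt in
lemma dact_stp {φ : Tr} (h : IsFl φ) {i : ℕ} (hi : i ≤ 2) :
    dact d (stp i φ) = stp (2 - i) (dact d φ) := by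
  have hd := dact_isFl dm dl db dt h
  obtain ⟨h1, h2, h3, h4, h5, h6, h7, h8⟩ := h
  obtain ⟨g1, g2, g3, g4, g5, g6, g7, g8⟩ := hd
  have g4' : (d φ.2.2).1 = 1 := g4
  have g5' : (d φ.2.1).1 = 2 := g5
  have g6' : (d φ.1).1 = 3 := g6
  interval_cases i
  · have hm : φ.1 ∈ mid L bt φ.2.1 := mem_mid.mpr ⟨h1, bt_lt h1 (by omega), h7⟩
    have := d_oth dm dl di good.memb h2 (bt_lt h2 (by omega)) (by rw [h5]; rfl)
      (by rw [db, g5']; rfl) hm
    rw [db] at this
    show (d φ.2.2, d φ.2.1, d (oth bt φ.2.1 φ.1)) = (d φ.2.2, d φ.2.1, oth (d φ.2.1) tp (d φ.1))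
    rw [this]
  · have h9 := lt_trans' h1 h2 h3 h7 h8
    have hm : φ.2.1 ∈ mid L φ.1 φ.2.2 := mem_mid.mpr ⟨h2, h7, h8⟩
    have := d_oth dm dl di h1 h3 h9 (by rw [h6, h4]) (by rw [g4', g6']) hm
    show (d φ.2.2, d (oth φ.1 φ.2.2 φ.2.1), d φ.1) =
      (d φ.2.2, oth (d φ.2.2) (d φ.1) (d φ.2.1), d φ.1)
    rw [this]
  · have hm : φ.2.2 ∈ mid L φ.2.1 tp := mem_mid.mpr ⟨h3, h8, lt_tp h3 (by omega)⟩
    have := d_oth dm dl di h2 good.memt (lt_tp h2 (by omega)) (by rw [h5]; rfl)
      (by rw [dt, g5']; rfl) hm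
    rw [dt] at this
    show (d (oth φ.2.1 tp φ.2.2), d φ.2.1, d φ.1) = (oth bt (d φ.2.1) (d φ.2.2), d φ.2.1, d φ.1)
    rw [this]

include dm dl di db dt in
lemma dact_walk (w : List ℕ) (hw : ∀ i ∈ w, i ≤ 2) {φ : Tr} (h : IsFl φ) :
    dact d (walk w φ) = walk (star w) (dact d φ) := by
  induction w generalizing φ with
  | nil => rfl
  | cons i l ih =>
    show dact d (walk l (stp i φ)) = walk (star l) (stp (2 - i) (dact d φ))
    rw [ih (fun j hj => hw j (List.mem_cons_of_mem _ hj)) (stp_isFl h i),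
      dact_stp dm dl di db dt h (hw i List.mem_cons_self)]

include dm dl di db dt in
lemma not_involutive : ¬ ∀ x ∈ L, d (d x) = x := by
  intro hinv
  have hψ := dact_isFl dm dl db dt base_isFl
  obtain ⟨w, hw, hw1, hw2⟩ := word_of (mem_fls hψ)
  apply hw2
  have h1 := dact_walk dm dl di db dt w hw base_isFl
  rw [hw1] at h1
  rw [← h1]
  obtain ⟨b1, b2, b3, _⟩ := base_isFl
  show (d (d base.1), d (d base.2.1), d (d base.2.2)) = base
  rw [hinv _ b1, hinv _ b2, hinv _ b3]

end dual

lemma no_polarity : ¬ ∃ δ : (mkPoly good).Face ≃ (mkPoly good).Face, IsPolarity (mkPoly good) δ := by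
  rintro ⟨δ, hδ, hinv⟩
  classical
  let δ' : PF L ≃ PF L := δ
  have hle : ∀ x y : PF L, leB x.1 y.1 = true ↔ leB (δ' y).1 (δ' x).1 = true := fun x y => hδ x y
  have hlt : ∀ x y : PF L, ltB x.1 y.1 = true ↔ ltB (δ' y).1 (δ' x).1 = true := by
    intro x y
    have e1 : ∀ x y : PF L, ltB x.1 y.1 = true ↔ leB x.1 y.1 = true ∧ x ≠ y := by
      intro x y
      unfold ltB
      rw [Bool.and_eq_true, Bool.not_eq_true', ← Bool.not_eq_true, Nat.beq_eq]
      constructor
      · rintro ⟨h1, h2⟩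
        exact ⟨h1, fun he => h2 (by rw [he])⟩
      · rintro ⟨h1, h2⟩
        exact ⟨h1, fun he => h2 (Subtype.ext (good.inj _ x.2 _ y.2 he))⟩
    rw [e1, e1, hle]
    constructor
    · rintro ⟨h1, h2⟩
      exact ⟨h1, fun he => h2 (δ'.injective he).symm⟩
    · rintro ⟨h1, h2⟩
      exact ⟨h1, fun he => h2 (by rw [he])⟩
  let d : El → El := fun x => if h : x ∈ L then (δ' ⟨x, h⟩).1 else x
  have hd : ∀ x (h : x ∈ L), d x = (δ' ⟨x, h⟩).1 := fun x h => dif_pos h
  have dm : ∀ x ∈ L, d x ∈ L := by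
    intro x hx
    rw [hd x hx]
    exact (δ' ⟨x, hx⟩).2
  have dl : ∀ x ∈ L, ∀ y ∈ L, ltB x y = true → ltB (d y) (d x) = true := by
    intro x hx y hy h
    rw [hd x hx, hd y hy]
    exact (hlt ⟨x, hx⟩ ⟨y, hy⟩).mp h
  have di : ∀ x ∈ L, ∀ y ∈ L, d x = d y → x = y := by
    intro x hx y hy h
    rw [hd x hx, hd y hy] at h
    have := δ'.injective (Subtype.ext h)
    exact congrArg Subtype.val this
  have db : d bt = tp := by
    have h1 : tp ∈ L := good.memt
    obtain ⟨⟨z, hz⟩, hz'⟩ := δ'.surjective ⟨tp, h1⟩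
    have h2 : leB (d z) (d bt) = true := by
      rw [hd z hz, hd bt good.memb]
      exact (hle ⟨bt, good.memb⟩ ⟨z, hz⟩).mp (good.bot z hz)
    have h3 : d z = tp := by rw [hd z hz, hz']
    rw [h3] at h2
    exact good.inj _ (dm _ good.memb) _ h1 (leB_antisymm (good.top _ (dm _ good.memb)) h2)
  have dt : d tp = bt := by
    have h1 : bt ∈ L := good.memb
    obtain ⟨⟨z, hz⟩, hz'⟩ := δ'.surjective ⟨bt, h1⟩
    have h2 : leB (d tp) (d z) = true := by
      rw [hd z hz, hd tp good.memt]
      exact (hle ⟨z, hz⟩ ⟨tp, good.memt⟩).mp (good.top z hz)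
    have h3 : d z = bt := by rw [hd z hz, hz']
    rw [h3] at h2
    exact good.inj _ (dm _ good.memt) _ h1 (leB_antisymm h2 (good.bot _ (dm _ good.memt)))
  apply not_involutive dm dl di db dt
  intro x hx
  rw [hd x hx, hd _ (δ' ⟨x, hx⟩).2]
  have : δ' (δ' ⟨x, hx⟩) = ⟨x, hx⟩ := hinv ⟨x, hx⟩
  exact congrArg Subtype.val this

/-- **Not every equivelar self-dual polyhedron has a polarity**: there is a finite equivelar
self-dual abstract polyhedron of type `{5, 5}` which does not have any polarity. -/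
theorem result : ∃ P : Polytope 3, Finite P.Face ∧ Equivelar P 5 5 ∧
    (∃ δ : P.Face ≃ P.Face, IsDuality P δ) ∧ ¬ ∃ δ : P.Face ≃ P.Face, IsPolarity P δ := by
  refine ⟨mkPoly good, ?_, equivelar, exists_duality, no_polarity⟩
  show Finite (PF L)
  infer_instance

end Pool.Agent.Results.MP_1940b6_co.NoPolarity
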